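import Pool.Agent.Helper92_LUR.Defs

set_option autoImplicit false
open Filter Topology Set

namespace LUR.H12

section
variable {K : Type} {ι : Type}

/-- The set of points of all `F l`, `l ∈ S`, that are in no `W l N`. -/
def EE (F : ℕ → Set K) (W : ℕ → ι → Set K) (S : Finset ℕ) : Set K :=
  ⋂ l ∈ S, (F l \ ⋃ N, W l N)

open Classical in
/-- The finite sets chosen along the run. -/
noncomputable def SS (F : ℕ → Set K) (W : ℕ → ι → Set K) (H : Set K) : ℕ → Finset ℕ
  | 0 => ∅
  | j + 1 => if (H ∩ (EE F W (SS F W H j) ∩ F j)).Nonempty then insert j (SS F W H j)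
      else SS F W H j

theorem EE_insert (F : ℕ → Set K) (W : ℕ → ι → Set K) (S : Finset ℕ) (j : ℕ) :
    EE F W (insert j S) = (F j \ ⋃ N, W j N) ∩ EE F W S := by
  unfold EE
  rw [Finset.set_biInter_insert]

end

theorem elig : LUR.ELIG := by
  classical
  intro K _ _ ι F W O hFc hWF hdisj hdiff hO hWO hcov
  have hGc : ∀ j, IsClosed (F j \ ⋃ N, W j N) := by
    intro j
    have := hdiff j univ
    simpa using this
  have hEc : ∀ S, IsClosed (EE F W S) := by
    intro S
    unfold EE
    exact isClosed_biInter fun l _ => hGc l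
  let dec : ℕ → Finset ℕ × ℕ := fun i => (Encodable.decode (α := Finset ℕ × ℕ) i).getD (∅, 0)
  have hdec : ∀ p : Finset ℕ × ℕ, dec (Encodable.encode p) = p := by
    intro p
    change (Encodable.decode (α := Finset ℕ × ℕ) (Encodable.encode p)).getD (∅, 0) = p
    rw [Encodable.encodek]
    rfl
  let F' : ℕ → Set K := fun i => EE F W (dec i).1 ∩ F (dec i).2
  let V' : ℕ → ι → Set K := fun i N => EE F W (dec i).1 ∩ W (dec i).2 N
  have hdiff' : ∀ i (A : Set ι), F' i \ ⋃ N ∈ A, V' i N =
      EE F W (dec i).1 ∩ (F (dec i).2 \ ⋃ N ∈ A, W (dec i).2 N) := by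
    intro i A
    ext x
    simp only [F', V', Set.mem_sdiff, mem_inter_iff, mem_iUnion, not_exists, exists_prop, not_and]
    constructor
    · rintro ⟨⟨h1, h2⟩, h3⟩
      exact ⟨h1, h2, fun N hN hx => h3 N hN h1 hx⟩
    · rintro ⟨h1, h2, h3⟩
      exact ⟨⟨h1, h2⟩, fun N hN _ hx => h3 N hN hx⟩
  have hdiff'' : ∀ i, F' i \ ⋃ N, V' i N =
      EE F W (dec i).1 ∩ (F (dec i).2 \ ⋃ N, W (dec i).2 N) := by
    intro i
    have := hdiff' i univ
    simpa using this
  refine ⟨{ F := F', V := V', O := O, closedF := ?_, subF := ?_, closedDiff := ?_, disj := ?_,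
            openO := hO, subO := ?_, elig := ?_ }, rfl, ?_⟩
  · intro i
    exact (hEc _).inter (hFc _)
  · intro i N
    exact inter_subset_inter_right _ (hWF _ N)
  · intro i A
    rw [hdiff']
    exact (hEc _).inter (hdiff _ A)
  · intro i N M hNM
    exact (hdisj _ N M hNM).mono inter_subset_right inter_subset_right
  · intro i N
    exact inter_subset_right.trans (hWO _ N)
  · intro H hH hHn
    by_contra hcon
    push Not at hcon
    -- every S, j : if H ∩ (E_S ∩ F_j) nonempty then H ∩ (E_S ∩ G_j) nonempty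
    have hstep : ∀ (S : Finset ℕ) (j : ℕ), (H ∩ (EE F W S ∩ F j)).Nonempty →
        (H ∩ (EE F W S ∩ (F j \ ⋃ N, W j N))).Nonempty := by
      intro S j hne
      have h1 := hcon (Encodable.encode (S, j))
      rw [hdiff''] at h1
      simp only [F'] at h1
      rw [hdec] at h1
      exact h1 hne
    have hne : ∀ j, (H ∩ EE F W (SS F W H j)).Nonempty := by
      intro j
      induction j with
      | zero => simpa [SS, EE] using hHn
      | succ j ih =>
        simp only [SS]
        split_ifs with h
        · rw [EE_insert, inter_comm (F j \ ⋃ N, W j N)]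
          exact hstep _ _ h
        · exact ih
    have hmono : ∀ j, EE F W (SS F W H (j + 1)) ⊆ EE F W (SS F W H j) := by
      intro j
      simp only [SS]
      split_ifs with h
      · rw [EE_insert]
        exact inter_subset_right
      · exact Subset.rfl
    have hint : (⋂ j, H ∩ EE F W (SS F W H j)).Nonempty :=
      IsCompact.nonempty_iInter_of_sequence_nonempty_isCompact_isClosed
        (fun j => H ∩ EE F W (SS F W H j))
        (fun j => inter_subset_inter_right _ (hmono j)) hne
        (hH.inter (hEc _)).isCompact (fun j => hH.inter (hEc _))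
    obtain ⟨x, hx⟩ := hint
    rw [mem_iInter] at hx
    obtain ⟨j, N, hxN⟩ := hcov x
    have h1 : (H ∩ (EE F W (SS F W H j) ∩ F j)).Nonempty :=
      ⟨x, (hx j).1, (hx j).2, hWF j N hxN⟩
    have h2 := (hx (j + 1)).2
    simp only [SS, if_pos h1, EE_insert] at h2
    exact h2.1.2 (mem_iUnion.2 ⟨N, hxN⟩)
  · intro i N y hy
    exact ⟨(dec i).2, hy.2⟩

end LUR.H12
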