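import Pool.Agent.Helper92_LUR.Defs

set_option autoImplicit false
open Filter Topology Set

namespace LUR.H12

theorem term : LUR.TERM := by
  intro K _ _ F G hF hG hel H i hHc hHn hdec hne hmin hkill
  have hanti : Antitone H := antitone_nat_of_succ_le hdec
  have hinter : (⋂ k, H k).Nonempty :=
    IsCompact.nonempty_iInter_of_sequence_nonempty_isCompact_isClosed H hdec hHn
      (hHc 0).isCompact hHc
  obtain ⟨j, hj1, hj2⟩ := hel _ (isClosed_iInter hHc) hinter
  -- eventually H k ∩ G j = ∅
  have hk0 : ∃ k0, H k0 ∩ G j = ∅ := by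
    by_contra hcon
    push Not at hcon
    have h2 : (⋂ k, H k ∩ G j).Nonempty := by
      refine IsCompact.nonempty_iInter_of_sequence_nonempty_isCompact_isClosed (fun k => H k ∩ G j)
        (fun k => inter_subset_inter_left _ (hdec k)) (fun k => ?_)
        ((hHc 0).inter (hG j)).isCompact (fun k => (hHc k).inter (hG j))
      exact hcon k
    obtain ⟨x, hx⟩ := h2
    have hx' : x ∈ (⋂ k, H k) ∩ G j := by
      rw [mem_iInter] at hx
      exact ⟨mem_iInter.2 fun k => (hx k).1, (hx 0).2⟩
    rw [hj2] at hx'
    exact hx'
  obtain ⟨k0, hk0⟩ := hk0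
  have hle : ∀ k, k0 ≤ k → i k ≤ j := by
    intro k hk
    refine hmin k j ?_ ?_
    · exact hj1.mono (inter_subset_inter_left _ (iInter_subset _ k))
    · apply subset_empty_iff.1
      rw [← hk0]
      exact inter_subset_inter_left _ (hanti hk)
  have hinj : ∀ k k', k < k' → i k ≠ i k' := by
    intro k k' hkk heq
    have h1 : H k' ∩ F (i k) = ∅ := by
      apply subset_empty_iff.1
      rw [← hkill k]
      exact inter_subset_inter_left _ (hanti hkk)
    have h2 := hne k'
    rw [← heq, h1] at h2
    exact not_nonempty_empty h2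
  have hinj' : Function.Injective fun m : Fin (j + 2) => (⟨i (k0 + m), by
      have := hle (k0 + m) (by omega); omega⟩ : Fin (j + 1)) := by
    intro a b hab
    simp only [Fin.mk.injEq] at hab
    rcases lt_trichotomy (a : ℕ) (b : ℕ) with h | h | h
    · exact absurd hab (hinj _ _ (by omega))
    · exact Fin.ext h
    · exact absurd hab.symm (hinj _ _ (by omega))
  have := Fintype.card_le_of_injective _ hinj'
  simp at this

end LUR.H12
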